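import Pool.Agent.MP_3ee8cb_gt.DLH.Hess

/-! The inner minimum. -/

namespace Pool.Agent.MP_3ee8cb_gt.DLH

open DN (Dim dm)

variable [Dim]

open DN DZ DZH Set Filter Topology Real Metric
open scoped RealInnerProductSpace

noncomputable section

/-- The profile. -/
def ps (s : ℝ) : ℝ := s + s ^ 2 / 2

/-- The function that is minimised. -/
def Ph (m : MF) (b : V → ℝ) (q : V × V) (η : V) : ℝ := b (m.Z 1 (q.1, η)).1 + ps ⟪η, q.2⟫

/-- The inner minimum. -/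
def mn (m : MF) (ρ : ℝ) (b : V → ℝ) (q : V × V) : ℝ := sInf (Ph m b q '' closedBall 0 ρ)

variable {m : MF} {lg : V × V → V} {b : V → ℝ} {ν : V → V}

omit [Dim] in
theorem danskin {E F : Type} [NormedAddCommGroup E] [NormedSpace ℝ E] [NormedAddCommGroup F]
    [NormedSpace ℝ F] {K : Set F} (hK : IsCompact K) {b : F → ℝ} (hb : Continuous b)
    {g : E × F → ℝ} (hg : ContDiff ℝ 1 g) {q₀ : E} {m₀ : ℝ} (h0 : ∀ y ∈ K, m₀ ≤ b y + g (q₀, y))
    (h1 : ∃ y ∈ K, b y + g (q₀, y) = m₀) (ξ : E) : ∃ y₀ ∈ K, b y₀ + g (q₀, y₀) = m₀ ∧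
      ∀ q : ℝ → E, HasDerivAt q ξ 0 → q 0 = q₀ → ∀ ε, 0 < ε → ∀ᶠ t in 𝓝[>] (0 : ℝ), ∀ y ∈ K,
        m₀ + t * (fderiv ℝ g (q₀, y₀) (ξ, 0) - ε) ≤ b y + g (q t, y) := by
  have cF : Continuous fun y => b y + g (q₀, y) := hb.add (hg.continuous.comp (by fun_prop))
  have cD : Continuous fun y => fderiv ℝ g (q₀, y) (ξ, 0) :=
    ((hg.continuous_fderiv one_ne_zero).comp (by fun_prop)).clm_apply continuous_const
  obtain ⟨y₀, hy, hm⟩ := IsCompact.exists_isMinOn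
    (hK.inter_right (isClosed_eq cF (continuous_const (y := m₀)))) h1 cD.continuousOn
  refine ⟨y₀, hy.1, hy.2, fun q hq q0 ε hε => ?_⟩
  have tq : Tendsto q (𝓝[>] 0) (𝓝 q₀) := q0 ▸ hq.continuousAt.tendsto.mono_left nhdsWithin_le_nhds
  have key : ∀ y ∈ K, ∀ᶠ z : F × ℝ in 𝓝 y ×ˢ 𝓝[>] (0 : ℝ), z.1 ∈ K →
      m₀ + z.2 * (fderiv ℝ g (q₀, y₀) (ξ, 0) - ε) ≤ b z.1 + g (q z.2, z.1) := fun y yK => by
    have t1 : Tendsto (fun z : F × ℝ => (q z.2, z.1)) (𝓝 y ×ˢ 𝓝[>] (0 : ℝ)) (𝓝 (q₀, y)) :=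
      (tq.comp tendsto_snd).prodMk_nhds tendsto_fst
    have t2 : Tendsto (fun z : F × ℝ => z.2) (𝓝 y ×ˢ 𝓝[>] (0 : ℝ)) (𝓝 0) :=
      tendsto_snd.mono_right nhdsWithin_le_nhds
    rcases (h0 y yK).eq_or_lt with e | e
    · have d := hm (⟨yK, e.symm⟩ : y ∈ K ∩ {y | b y + g (q₀, y) = m₀})
      simp only [mem_ofPred_eq] at d
      obtain ⟨D, hD⟩ : ∃ D, D = fderiv ℝ g (q₀, y) := ⟨_, rfl⟩
      have s : HasStrictFDerivAt g D (q₀, y) :=
        hD ▸ hg.contDiffAt.hasStrictFDerivAt one_ne_zero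
      rw [← hD] at d
      have t3 : Tendsto (fun z : F × ℝ => ((q z.2, z.1), (q₀, z.1))) (𝓝 y ×ˢ 𝓝[>] (0 : ℝ))
          (𝓝 ((q₀, y), (q₀, y))) := t1.prodMk_nhds (tendsto_const_nhds.prodMk_nhds tendsto_fst)
      have sl := hq.tendsto_slope_zero_right
      simp only [zero_add, q0] at sl
      have c1 : Tendsto (fun t : ℝ => D (t⁻¹ • (q t - q₀), 0) - ε / 2 / (‖ξ‖ + 1) *
          ‖t⁻¹ • (q t - q₀)‖) (𝓝[>] 0) (𝓝 (D (ξ, 0) - ε / 2 / (‖ξ‖ + 1) * ‖ξ‖)) :=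
        ((D.continuous.tendsto _).comp (sl.prodMk_nhds tendsto_const_nhds)).sub
          (sl.norm.const_mul _)
      have c2 : D (ξ, 0) - ε < D (ξ, 0) - ε / 2 / (‖ξ‖ + 1) * ‖ξ‖ := by
        have : ε / 2 / (‖ξ‖ + 1) * ‖ξ‖ ≤ ε / 2 := by
          rw [div_mul_eq_mul_div, div_le_iff₀ (by positivity)]
          nlinarith
        linarith
      filter_upwards [t3.eventually (s.isLittleO.def (by positivity : 0 < ε / 2 / (‖ξ‖ + 1))),
        tendsto_snd.eventually (c1.eventually (lt_mem_nhds c2)),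
        tendsto_snd.eventually self_mem_nhdsWithin] with z a1 a2 a3 zK
      have a3 : 0 < z.2 := a3
      have a4 := h0 _ zK
      have e1 : (q z.2, z.1) - (q₀, z.1) = z.2 • (z.2⁻¹ • (q z.2 - q₀), (0 : F)) := by
        simp [smul_smul, a3.ne']
      rw [e1, map_smul, norm_smul, Prod.norm_mk, norm_zero, max_eq_left (norm_nonneg _),
        norm_eq_abs, norm_eq_abs, abs_of_pos a3, smul_eq_mul] at a1
      nlinarith [(abs_le.1 a1).1, mul_le_mul_of_nonneg_left a2.le a3.le,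
        mul_le_mul_of_nonneg_left d a3.le]
    · have l1 : Tendsto (fun z : F × ℝ => m₀ + z.2 * (fderiv ℝ g (q₀, y₀) (ξ, 0) - ε))
          (𝓝 y ×ˢ 𝓝[>] (0 : ℝ)) (𝓝 m₀) := by
        simpa using (t2.mul_const (fderiv ℝ g (q₀, y₀) (ξ, 0) - ε)).const_add m₀
      filter_upwards [l1.eventually_lt (((hb.tendsto y).comp tendsto_fst).add
        ((hg.continuous.tendsto _).comp t1)) e] with z hz _ using hz.le
  obtain ⟨s, hs, t, ht, h⟩ := Filter.mem_prod_iff.1 (hK.mem_nhdsSet_prod_of_forall key)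
  filter_upwards [ht] with τ hτ y yK
  exact h (mk_mem_prod (subset_of_mem_nhdsSet hs yK) hτ) yK

omit [Dim] in
theorem ch_low {L c : ℝ} (hL : 0 ≤ L) (hc : |c| ≤ 1) :
    exp (-(c * L)) * (1 + (1 - c ^ 2) * (1 + c) * L ^ 2 / 4) ≤ cosh L - c * sinh L := by
  have c1 := abs_le.1 hc
  have h1 := quadratic_le_exp_of_nonneg (mul_nonneg (by linarith : 0 ≤ 1 + c) hL)
  have h2 := add_one_le_exp (-((1 - c) * L))
  have e1 : exp L = exp (-(c * L)) * exp ((1 + c) * L) := by rw [← exp_add]; congr 1; ring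
  have e3 : exp (-L) = exp (-(c * L)) * exp (-((1 - c) * L)) := by rw [← exp_add]; congr 1; ring
  rw [cosh_eq, sinh_eq, e1, e3]
  have p := exp_pos (-(c * L))
  have k : 1 + (1 - c ^ 2) * (1 + c) * L ^ 2 / 4 ≤
      (1 - c) / 2 * exp ((1 + c) * L) + (1 + c) / 2 * exp (-((1 - c) * L)) := by
    nlinarith [mul_le_mul_of_nonneg_left h1 (by linarith : 0 ≤ (1 - c) / 2),
      mul_le_mul_of_nonneg_left h2 (by linarith : 0 ≤ (1 + c) / 2)]
  nlinarith [mul_le_mul_of_nonneg_left k p.le]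

omit [Dim] in
theorem num1 {c s θ : ℝ} (c1 : -1 ≤ c) (c2 : c ≤ 1) (d1 : -θ ≤ s - c) (d2 : s - c ≤ θ)
    (hθ : θ ≤ 1 / 4) : 1 / 40 ≤ (1 - c ^ 2) * (1 + c) / 8 + s ^ 2 / 2 := by
  have a0 : 0 ≤ (1 - c ^ 2) * (1 + c) := mul_nonneg (by nlinarith) (by linarith)
  rcases le_total c (-1 / 2) with u | u
  · have : (1 / 4) ^ 2 ≤ (-s) ^ 2 := pow_le_pow_left₀ (by norm_num) (by linarith) 2
    linarith
  · rcases le_total c (1 / 2) with u' | u'
    · have := mul_le_mul (by nlinarith : 3 / 4 ≤ 1 - c ^ 2) (by linarith : 1 / 2 ≤ 1 + c)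
        (by norm_num) (by nlinarith)
      linarith [sq_nonneg s]
    · have : (1 / 4) ^ 2 ≤ s ^ 2 := pow_le_pow_left₀ (by norm_num) (by linarith) 2
      linarith

theorem polar (η : V) : ∃ v : V, ‖v‖ = 1 ∧ η = ‖η‖ • v := by
  by_cases h : η = 0
  · exact ⟨EuclideanSpace.single (⟨0, by simp [dm]⟩ : Fin dm) 1, by simp, by simp [h]⟩
  · have := norm_ne_zero_iff.2 h
    exact ⟨‖η‖⁻¹ • η, by simp [norm_smul, this], by simp [smul_smul, this]⟩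

/-- Quadratic growth. -/
theorem grow (h : YW m lg) (i : IsB m lg b ν) {q : V × V}
    (hθ : ‖q.2 - ν q.1‖ ≤ 1 / 4) {η : V} (hη : ‖η‖ ≤ 1) :
    b q.1 - ‖q.2 - ν q.1‖ * ‖η‖ + ‖η‖ ^ 2 / 40 ≤ Ph m b q η := by
  obtain ⟨v, hv, e⟩ := polar η
  obtain ⟨L, hL⟩ : ∃ L, L = ‖η‖ := ⟨_, rfl⟩
  rw [← hL] at e hη ⊢
  have L0 : 0 ≤ L := hL ▸ norm_nonneg _
  have h1 := i.lb q.1 v L hv
  have e1 : (m.Z 1 (q.1, η)).1 = (m.Z L (q.1, v)).1 := by
    rw [e, DNWI.one_smul' h.jac L (q.1, v)]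
  obtain ⟨c, hc⟩ : ∃ c, c = ⟪ν q.1, v⟫ := ⟨_, rfl⟩
  obtain ⟨s, hs⟩ : ∃ s, s = ⟪q.2, v⟫ := ⟨_, rfl⟩
  obtain ⟨θ, hθ'⟩ : ∃ θ, θ = ‖q.2 - ν q.1‖ := ⟨_, rfl⟩
  have c1 : |c| ≤ 1 := by
    have := abs_real_inner_le_norm (ν q.1) v
    rwa [i.unit, hv, mul_one, ← hc] at this
  have d1 : |s - c| ≤ θ := by
    have := abs_real_inner_le_norm (q.2 - ν q.1) v
    rwa [hv, mul_one, inner_sub_left, ← hc, ← hs, ← hθ'] at this
  have e2 : ⟪η, q.2⟫ = L * s := by rw [e, real_inner_smul_left, real_inner_comm, hs]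
  rw [← hθ'] at hθ ⊢
  rw [Ph, e1, e2, ps]
  rw [← hc] at h1
  obtain ⟨t, ht⟩ : ∃ t, t = (1 - c ^ 2) * (1 + c) * L ^ 2 / 4 := ⟨_, rfl⟩
  have c2 := abs_le.1 c1
  have d2 := abs_le.1 d1
  have a0 : 0 ≤ (1 - c ^ 2) * (1 + c) := mul_nonneg (by nlinarith) (by linarith)
  have a1 : (1 - c ^ 2) * (1 + c) ≤ 2 := by nlinarith [sq_nonneg c]
  have t0 : 0 ≤ t := by rw [ht]; positivity
  have t1 : t ≤ 1 := by
    rw [ht]
    nlinarith [mul_le_mul a1 (pow_le_one₀ L0 hη (n := 2)) (sq_nonneg L) zero_le_two]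
  have h2 := (mul_le_mul_of_nonneg_left (ch_low L0 c1) (exp_pos (b q.1)).le).trans h1
  rw [← ht] at h2
  have h3 : exp (t / 2) ≤ 1 + t := by
    have := abs_le.1 (abs_exp_sub_one_le (x := t / 2) (by rw [abs_of_nonneg] <;> linarith))
    rw [abs_of_nonneg (by linarith)] at this
    linarith
  have h4 : b q.1 + (-(c * L) + t / 2) ≤ b (m.Z L (q.1, v)).1 := by
    refine exp_le_exp.1 (le_trans ?_ h2)
    rw [exp_add, exp_add]
    gcongr
  have h5 := mul_le_mul_of_nonneg_right (num1 c2.1 c2.2 d2.1 d2.2 hθ) (sq_nonneg L)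
  have h6 := mul_le_mul_of_nonneg_right d2.1 L0
  rw [ht] at h4
  linarith

theorem ph0 (h : YW m lg) (q : V × V) : Ph m b q 0 = b q.1 := by
  have := DNWI.one_smul' h.jac 0 (q.1, 0)
  rw [zero_smul, h.ok.zero] at this
  rw [Ph, this, inner_zero_left, ps]
  ring

theorem cb (h : YW m lg) (i : IsB m lg b ν) : Continuous b :=
  continuous_iff_continuousAt.2 fun y => by
    have c := h.had.c1.continuous
    have t : ∀ f : V → V × V, Continuous f → f y = (y, y) →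
        Tendsto (fun x => ‖lg (f x)‖) (𝓝 y) (𝓝 0) := fun f hf e => by
      have := ((c.comp hf).norm.tendsto y)
      simpa [e, DNWI.lg_self h.ok h.jac h.had] using this
    refine tendsto_of_tendsto_of_tendsto_of_le_of_le (g := fun x => b y - ‖lg (y, x)‖)
      (h := fun x => b y + ‖lg (x, y)‖) ?_ ?_ (fun x => ?_) fun x => ?_
    · simpa using (t (fun x => (y, x)) (by fun_prop) rfl).const_sub (b y)
    · simpa using (t (fun x => (x, y)) (by fun_prop) rfl).const_add (b y)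
    · linarith [i.lip y x]
    · linarith [i.lip x y]

theorem c_ph (h : YW m lg) (hb : Continuous b) (q : V × V) : Continuous (Ph m b q) := by
  have := (DNWI.Z_c1 h.ok 1).continuous
  unfold Ph ps
  fun_prop

theorem mn_ex (h : YW m lg) (hb : Continuous b) {ρ : ℝ} (h0 : 0 ≤ ρ) (q : V × V) :
    ∃ η, ‖η‖ ≤ ρ ∧ mn m ρ b q = Ph m b q η ∧ ∀ η', ‖η'‖ ≤ ρ → Ph m b q η ≤ Ph m b q η' := by
  obtain ⟨η, a1, a2, a3⟩ := (isCompact_closedBall (0 : V) ρ).exists_sInf_image_eq_and_le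
    (nonempty_closedBall.2 h0) (c_ph h hb q).continuousOn
  exact ⟨η, by simpa using a1, a2, fun η' h' => a3 η' (by simpa using h')⟩

theorem mn_le (h : YW m lg) (hb : Continuous b) {ρ : ℝ} (q : V × V) {η : V} (hη : ‖η‖ ≤ ρ) :
    mn m ρ b q ≤ Ph m b q η := by
  obtain ⟨η', -, a2, a3⟩ := mn_ex h hb ((norm_nonneg _).trans hη) q
  rw [a2]
  exact a3 η hη

theorem mn_up (h : YW m lg) (hb : Continuous b) {ρ : ℝ} (h0 : 0 ≤ ρ) (q : V × V) :
    mn m ρ b q ≤ b q.1 := by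
  rw [← ph0 (b := b) h]
  exact mn_le h hb q (by simpa using h0)

/-- Second order lower bound near the direction of the centre. -/
theorem mn_low (h : YW m lg) (i : IsB m lg b ν) {ρ : ℝ} (h0 : 0 ≤ ρ) (h1 : ρ ≤ 1) {q : V × V}
    (hθ : ‖q.2 - ν q.1‖ ≤ 1 / 4) :
    b q.1 - 10 * ‖q.2 - ν q.1‖ ^ 2 ≤ mn m ρ b q := by
  obtain ⟨η, a1, a2, -⟩ := mn_ex h (cb h i) h0 q
  have := grow h i hθ (a1.trans h1)
  rw [a2]
  nlinarith [sq_nonneg (‖η‖ - 20 * ‖q.2 - ν q.1‖)]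

theorem mn_eq (h : YW m lg) (i : IsB m lg b ν) {ρ : ℝ} (h0 : 0 ≤ ρ) (h1 : ρ ≤ 1) (z : V) :
    mn m ρ b (z, ν z) = b z := by
  refine le_antisymm (mn_up h (cb h i) h0 _) ?_
  simpa using mn_low h i h0 h1 (q := (z, ν z)) (by simp)

/-- A large minimum forces a small angle. -/
theorem angle (h : YW m lg) (i : IsB m lg b ν) {ρ t : ℝ} (h0 : 0 ≤ t) (h1 : t ≤ ρ) {q : V × V}
    (hq : ‖q.2‖ = 1) : mn m ρ b q ≤ b q.1 - t * ‖q.2 - ν q.1‖ ^ 2 / 2 + t ^ 2 / 2 := by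
  have n1 : ‖t • ν q.1‖ = t := by rw [norm_smul, i.unit, mul_one, norm_eq_abs, abs_of_nonneg h0]
  refine (mn_le h (cb h i) q (n1.le.trans h1)).trans ?_
  have c1 := abs_real_inner_le_norm (ν q.1) q.2
  rw [i.unit, hq, mul_one] at c1
  have c2 : ⟪ν q.1, q.2⟫ ^ 2 ≤ 1 := by nlinarith [abs_le.1 c1]
  rw [Ph, DNWI.one_smul' h.jac t (q.1, ν q.1), i.ray, real_inner_smul_left, ps,
    norm_sub_sq_real, hq, i.unit, real_inner_comm (ν q.1) q.2]
  nlinarith [mul_le_mul_of_nonneg_left c2 (sq_nonneg t)]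

/-- The first order condition at an interior minimum. -/
theorem first (h : YW m lg) (i : IsB m lg b ν) {q : V × V} (hq : ‖q.2‖ = 1) {y : V} {R : ℝ}
    (hy : ‖lg (q.1, y)‖ < R) (hR : R ≤ 1) (hm : ∀ y', ‖lg (q.1, y')‖ ≤ R →
      b y + ps ⟪lg (q.1, y), q.2⟫ ≤ b y' + ps ⟪lg (q.1, y'), q.2⟫) : 0 ≤ ⟪lg (q.1, y), q.2⟫ := by
  obtain ⟨l, hl⟩ : ∃ l, l = ⟪lg (q.1, y), q.2⟫ := ⟨_, rfl⟩
  have l1 : |l| ≤ 1 := by
    have := abs_real_inner_le_norm (lg (q.1, y)) q.2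
    rw [hq, mul_one, ← hl] at this
    linarith
  rw [← hl] at hm ⊢
  refine le_of_forall_pos_le_add fun ε hε => ?_
  obtain ⟨t, ht⟩ : ∃ t, t = min ε (R - ‖lg (q.1, y)‖) := ⟨_, rfl⟩
  have t0 : 0 < t := ht ▸ lt_min hε (by linarith)
  have t1 : t ≤ ε := ht ▸ min_le_left _ _
  have t2 : t ≤ R - ‖lg (q.1, y)‖ := ht ▸ min_le_right _ _
  have d : ‖lg (y, (m.Z t (y, ν y)).1)‖ = t := by
    rw [DNWI.lg_ray h.jac h.had t (y, ν y), norm_smul, i.unit, mul_one, norm_eq_abs,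
      abs_of_pos t0]
  have a1 := hm (m.Z t (y, ν y)).1 ((h.had.tri _ y _).trans (by linarith))
  have a2 := abs_real_inner_le_norm (lg (q.1, y) - lg (q.1, (m.Z t (y, ν y)).1)) q.2
  rw [hq, mul_one, inner_sub_left, ← hl] at a2
  have a3 := abs_le.1 (a2.trans ((DNWI.hinge' h.had _ _ _).trans_eq d))
  rw [i.ray, ps, ps] at a1
  obtain ⟨l', hl'⟩ : ∃ l', l' = ⟪lg (q.1, (m.Z t (y, ν y)).1), q.2⟫ := ⟨_, rfl⟩
  rw [← hl'] at a1 a3
  have a4 : (l' - l) ^ 2 ≤ t ^ 2 := sq_le_sq' (by linarith) (by linarith)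
  have a5 : (1 + l) * (l' - l) ≤ (1 + l) * t :=
    mul_le_mul_of_nonneg_left (by linarith) (by linarith [(abs_le.1 l1).1])
  have a6 : 0 ≤ t * (l + t / 2) := by nlinarith
  have := le_of_mul_le_mul_left (by simpa using a6 : t * 0 ≤ t * (l + t / 2)) t0
  linarith

theorem g_der (h : YW m lg) (z w y : V) (ξ : V × V) (hξ : m.ver (z, w) ξ = 0) :
    fderiv ℝ (fun r : (V × V) × V => ps ⟪lg (r.1.1, r.2), r.1.2⟫) ((z, w), y) (ξ, 0) =
      ⟪(1 + ⟪lg (z, y), w⟫) • DL m lg y z w, m.hor (z, w) ξ⟫ := by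
  have c := h.had.c1
  have hg : ContDiff ℝ 1 fun r : (V × V) × V => ps ⟪lg (r.1.1, r.2), r.1.2⟫ := by
    have : ContDiff ℝ 1 fun r : (V × V) × V => ⟪lg (r.1.1, r.2), r.1.2⟫ :=
      (c.comp (by fun_prop)).inner ℝ (by fun_prop)
    unfold ps
    fun_prop
  have l1 : HasDerivAt (fun t : ℝ => z + t • ξ.1) ξ.1 0 := by
    simpa using ((hasDerivAt_id (0 : ℝ)).smul_const ξ.1).const_add z
  have l2 : HasDerivAt (fun t : ℝ => w + t • ξ.2) ξ.2 0 := by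
    simpa using ((hasDerivAt_id (0 : ℝ)).smul_const ξ.2).const_add w
  have d1 := HasFDerivAt.comp_hasDerivAt_of_eq (0 : ℝ)
    (hg.differentiable one_ne_zero ((z, w), y)).hasFDerivAt
    ((l1.prodMk l2).prodMk (hasDerivAt_const (0 : ℝ) y)) (by simp)
  have d2 := (HasFDerivAt.comp_hasDerivAt_of_eq (0 : ℝ) (dlg h y z) l1 (by simp)).inner ℝ l2
  have d3 := d2.add ((d2.pow 2).div_const 2)
  have e := d1.unique d3
  simp only [Function.comp_apply, zero_smul, add_zero, Prod.mk.eta] at e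
  have e2 : ξ.2 = -m.om z ξ.1 w := by
    rw [eq_neg_iff_add_eq_zero]
    simpa [MF.ver] using hξ
  have e3 : ⟪DL m lg y z w, m.hor (z, w) ξ⟫ = ⟪lg (z, y), ξ.2⟫ +
      ⟪fderiv ℝ (fun x => lg (x, y)) z ξ.1, w⟫ := by
    rw [sym h, real_inner_comm, e2, inner_neg_right, ← h.ok.skew]
    simp [DL, MF.hor, h.ok.RS, inner_add_left, add_comm]
  rw [e, real_inner_smul_left, e3]
  norm_num
  ring

/-- The one sided derivative of the inner minimum in a horizontal direction. -/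
theorem dini (h : YW m lg) (i : IsB m lg b ν) {hi ρ : ℝ} (hd : m.Dn hi) (h0 : 0 ≤ hi)
    (hρ : ρ ≤ 1 / 2) {z w : V} (hw : ‖w‖ = 1) (hθ : 40 * ‖w - ν z‖ < ρ) (ξ : V × V)
    (hξ : m.ver (z, w) ξ = 0) : ∃ (c : ℝ) (ζ : V), 1 ≤ c ∧ ⟪ζ, w⟫ = 0 ∧ ‖ζ‖ ≤ 4 * hi * ρ ^ 2 ∧
      c ≤ 2 + 4 * hi * ρ ^ 2 ∧ ‖ζ‖ ^ 2 ≤ 4 * hi * ρ ^ 2 * (c - 1) ∧ (m.Up 1 → c = 1 → ν z = w) ∧
      ∀ q : ℝ → V × V, HasDerivAt q ξ 0 → q 0 = (z, w) → ∀ ε, 0 < ε → ∀ᶠ t in 𝓝[>] (0 : ℝ),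
        mn m ρ b (z, w) + t * (-⟪c • w + ζ, m.hor (z, w) ξ⟫ - ε) ≤ mn m ρ b (q t) := by
  have c := h.had.c1
  have hb := cb h i
  have hg : ContDiff ℝ 1 fun r : (V × V) × V => ps ⟪lg (r.1.1, r.2), r.1.2⟫ := by
    have : ContDiff ℝ 1 fun r : (V × V) × V => ⟪lg (r.1.1, r.2), r.1.2⟫ :=
      (c.comp (by fun_prop)).inner ℝ (by fun_prop)
    unfold ps
    fun_prop
  have θ0 := norm_nonneg (w - ν z)
  have ρ0 : 0 < ρ := by linarith
  have cZ := (DNWI.Z_c1 h.ok 1).continuous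
  have hK : IsCompact ((fun η : V => (m.Z 1 (z, η)).1) '' closedBall 0 1) :=
    (isCompact_closedBall _ _).image (by fun_prop)
  have mK : ∀ y, ‖lg (z, y)‖ ≤ 1 → y ∈ (fun η : V => (m.Z 1 (z, η)).1) '' closedBall 0 1 :=
    fun y hy => ⟨_, by simpa using hy, h.had.ex z y⟩
  have gr : ∀ η, ‖η‖ ≤ 1 → b z - ‖w - ν z‖ * ‖η‖ + ‖η‖ ^ 2 / 40 ≤ Ph m b (z, w) η :=
    fun η hη => grow h i (q := (z, w)) (by simp only []; linarith) hη
  have up : mn m ρ b (z, w) ≤ b z := mn_up h hb ρ0.le (z, w)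
  have k0 : ∀ y ∈ (fun η : V => (m.Z 1 (z, η)).1) '' closedBall 0 1,
      mn m ρ b (z, w) ≤ b y + ps ⟪lg (z, y), w⟫ := by
    rintro _ ⟨η, hη, rfl⟩
    rw [h.had.xe]
    rcases le_total ‖η‖ ρ with u | u
    · exact mn_le h hb (z, w) u
    · have := gr η (by simpa using hη)
      exact up.trans (le_trans (by nlinarith [norm_nonneg η]) this)
  obtain ⟨y, yK, ey, hy⟩ := danskin hK hb hg (q₀ := (z, w)) k0 (by
    obtain ⟨η, a1, a2, -⟩ := mn_ex h hb ρ0.le (z, w)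
    refine ⟨_, ⟨η, by simpa using a1.trans (by linarith), rfl⟩, ?_⟩
    simp only [h.had.xe]
    exact a2.symm) ξ
  rw [g_der h z w y ξ hξ] at hy
  simp only [] at ey
  have yρ : ‖lg (z, y)‖ ≤ ρ := by
    obtain ⟨η, hη, rfl⟩ := yK
    rw [h.had.xe] at ey ⊢
    have := (gr η (by simpa using hη)).trans (ey.le.trans up)
    by_contra hc
    nlinarith [norm_nonneg η, not_le.1 hc]
  have f1 := first h i (q := (z, w)) hw (y := y) (R := 1) (by simp only []; linarith) le_rfl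
    fun y' hy' => ey.le.trans (k0 y' (mK y' hy'))
  have f2 := real_inner_le_norm (lg (z, y)) w
  rw [hw, mul_one] at f2
  simp only [] at f1
  obtain ⟨k, ζ, e, k1, k2, k3, k4, k5, k6⟩ := split h hd h0 y z hw
    (s := 1 + ⟪lg (z, y), w⟫) (by linarith)
  have m1 : 2 * hi * ‖lg (z, y)‖ ^ 2 ≤ 2 * hi * ρ ^ 2 := by gcongr
  have m2 : (1 + ⟪lg (z, y), w⟫) * (2 * hi * ‖lg (z, y)‖ ^ 2) ≤ 4 * hi * ρ ^ 2 :=
    (mul_le_mul (by linarith : _ ≤ (2 : ℝ)) m1 (by positivity) zero_le_two).trans_eq (by ring)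
  refine ⟨k, ζ, k1, k2, k3.trans m2, by nlinarith, k5.trans
    (mul_le_mul_of_nonneg_right m2 (by linarith)), fun hu hc => ?_, fun q hq q0 ε hε => ?_⟩
  · obtain ⟨a1, a2⟩ := k6 hu hc
    have a3 : ⟪lg (z, y), w⟫ = 0 := by linarith
    rw [real_inner_comm, a3] at a2
    have a4 : lg (z, y) = 0 := norm_eq_zero.1 (by nlinarith [norm_nonneg (lg (z, y))])
    have a5 : y = z := by
      have := h.had.ex z y
      rw [a4, ← DNWI.lg_self h.ok h.jac h.had z, h.had.ex] at this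
      exact this.symm
    rw [a3, a5, ps] at ey
    have a6 : ‖w - ν z‖ ^ 2 ≤ 0 := le_of_forall_pos_le_add fun t ht => by
      have t0 : 0 < min t ρ := lt_min ht ρ0
      have := angle h i t0.le (min_le_right t ρ) (q := (z, w)) hw
      simp only [] at this
      have a7 : min t ρ * ‖w - ν z‖ ^ 2 ≤ min t ρ * min t ρ := by nlinarith
      linarith [le_of_mul_le_mul_left a7 t0, min_le_left t ρ]
    exact (sub_eq_zero.1 (norm_eq_zero.1 (by nlinarith))).symm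
  · have t1 : Tendsto (fun t => ‖lg (z, (q t).1)‖) (𝓝[>] 0) (𝓝 0) := by
      have := ((c.continuous.tendsto _).comp ((tendsto_const_nhds (x := z)).prodMk_nhds
        hq.continuousAt.fst.tendsto)).norm.mono_left (nhdsWithin_le_nhds (s := Ioi 0))
      simpa [q0, DNWI.lg_self h.ok h.jac h.had, Function.comp_def] using this
    filter_upwards [hy q hq q0 ε hε, t1.eventually (gt_mem_nhds (by norm_num : (0 : ℝ) < 1 / 2))]
      with t a1 a2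
    obtain ⟨η, b1, b2, -⟩ := mn_ex h hb ρ0.le (q t)
    have b3 := a1 (m.Z 1 ((q t).1, η)).1 (mK _ ((h.had.tri _ (q t).1 _).trans (by
      rw [h.had.xe]
      linarith)))
    simp only [h.had.xe] at b3
    rw [← e, inner_neg_left, neg_neg, b2]
    exact b3

end

end Pool.Agent.MP_3ee8cb_gt.DLH
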