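import Pool.Agent.MP_3ee8cb_gt.DZ.Spec
import Pool.Agent.MP_3ee8cb_gt.DZH.Jac

/-! The Hessian of the squared distance under two sided curvature bounds. -/

namespace Pool.Agent.MP_3ee8cb_gt.DLH

open DN (Dim dm)

variable [Dim]

open DN DZ DZH Set Filter Topology
open scoped RealInnerProductSpace

variable {m : MF} {lg : V × V → V}

theorem dlg (h : YW m lg) (Q y : V) :
    HasFDerivAt (fun y => lg (y, Q)) (fderiv ℝ (fun y => lg (y, Q)) y) y :=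
  ((h.had.c1.comp (f := fun y => (y, Q)) (by fun_prop)).differentiable one_ne_zero y).hasFDerivAt

theorem dl_der (h : YW m lg) (Q : V) (z : V × V) (t : ℝ) :
    HasDerivAt (fun s => lg ((m.Z s z).1, Q)) (DL m lg Q (m.Z t z).1 (m.Z t z).2 -
      m.w z t (lg ((m.Z t z).1, Q))) t :=
  ((dlg h Q _).comp_hasDerivAt t (DNTR.ode1 h.ok z t)).congr_deriv (by
    simp [DL, MF.w])

theorem jf (h : YW m lg) (Q y e : V) : ∃ ξ, m.hor (y, lg (y, Q)) ξ = e ∧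
    m.ver (y, lg (y, Q)) ξ = DL m lg Q y e ∧ m.J (y, lg (y, Q)) ξ 1 = 0 := by
  refine ⟨(m.R y e, fderiv ℝ (fun y => lg (y, Q)) y (m.R y e)), by simp [MF.hor, h.ok.SR],
    by simp [MF.ver, DL], ?_⟩
  have a := ((DNTR.dZ h.ok 1 (y, lg (y, Q))).comp y
    ((hasFDerivAt_id y).prodMk (dlg h Q y))).fst
  have b : HasFDerivAt (fun y => (m.Z 1 (y, lg (y, Q))).1) (0 : V →L[ℝ] V) y := by
    simp only [h.had.ex]
    exact hasFDerivAt_const Q y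
  have c : (fderiv ℝ (m.Z 1) (y, lg (y, Q)) (m.R y e,
      fderiv ℝ (fun y => lg (y, Q)) y (m.R y e))).1 = 0 :=
    DFunLike.congr_fun (a.unique b) (m.R y e)
  simp [MF.J, MF.hor, c]

theorem sym (h : YW m lg) (Q y e e' : V) : ⟪DL m lg Q y e, e'⟫ = ⟪e, DL m lg Q y e'⟫ := by
  obtain ⟨ξ, a1, a2, a3⟩ := jf h Q y e
  obtain ⟨η, b1, b2, b3⟩ := jf h Q y e'
  have := h.jac.symp (y, lg (y, Q)) ξ η 1
  rw [a1, a2, a3, b1, b2, b3, inner_zero_left, inner_zero_right] at this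
  linarith

theorem mono (h : YW m lg) (Q y e : V) : ∃ G G' : ℝ → ℝ, (∀ t, HasDerivAt G (G' t) t) ∧
    (∀ t, 0 ≤ G' t) ∧ G 1 - G 0 = -⟪DL m lg Q y e, e⟫ - ‖e‖ ^ 2 ∧
      -⟪m.K y e (lg (y, Q)) (lg (y, Q)), e⟫ ≤ G' 0 := by
  obtain ⟨ξ, a1, a2, a3⟩ := jf h Q y e
  obtain ⟨z, hz⟩ : ∃ z : V × V, z = (y, lg (y, Q)) := ⟨_, rfl⟩
  rw [← hz] at a1 a2 a3
  obtain ⟨O, O0, -, O1⟩ := h.jac.par z
  have dO : ∀ t, HasDerivAt (fun s => O s e) (0 - m.w z t (O t e)) t := fun t =>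
    (O1 e t).congr_deriv (zero_sub _).symm
  refine ⟨fun t => ⟪m.J z ξ t, m.J' z ξ t⟫ + 2 * ⟪m.J z ξ t, O t e⟫ + ‖e‖ ^ 2 * t,
    fun t => ‖m.J' z ξ t + O t e‖ ^ 2 -
      ⟪m.K (m.Z t z).1 (m.J z ξ t) (m.Z t z).2 (m.Z t z).2, m.J z ξ t⟫, fun t => ?_,
    fun t => ?_, ?_, ?_⟩
  · refine (((cov_inner h.ok z (h.jac.d1 z ξ t) (h.jac.d2 z ξ t)).add
      ((cov_inner h.ok z (h.jac.d1 z ξ t) (dO t)).const_mul 2)).add
      ((hasDerivAt_id t).const_mul (‖e‖ ^ 2))).congr_deriv ?_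
    simp only []
    rw [norm_add_sq_real, (O t).norm_map, real_inner_self_eq_norm_sq, inner_neg_right,
      inner_zero_right, real_inner_comm (m.J z ξ t)]
    ring
  · have := h.up (m.Z t z).1 (m.J z ξ t) (m.Z t z).2
    nlinarith [sq_nonneg ‖m.J' z ξ t + O t e‖]
  · simp only [a3, inner_zero_left, DNWI.J_zero h.ok, DNWI.J'_zero h.ok, a1, a2, O0,
      real_inner_self_eq_norm_sq, real_inner_comm e (DL m lg Q y e)]
    ring
  · simp only [h.ok.zero, DNWI.J_zero h.ok, a1]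
    rw [hz]
    nlinarith [sq_nonneg ‖m.J' (y, lg (y, Q)) ξ 0 + O 0 e‖]

theorem low (h : YW m lg) (Q y e : V) : ‖e‖ ^ 2 ≤ -⟪DL m lg Q y e, e⟫ := by
  obtain ⟨G, G', d, p, e1, -⟩ := mono h Q y e
  have := monotone_of_hasDerivAt_nonneg d p zero_le_one
  linarith

theorem strict (h : YW m lg) (hu : m.Up 1) (Q y e : V) (he : -⟪DL m lg Q y e, e⟫ ≤ ‖e‖ ^ 2) :
    ‖e‖ ^ 2 * ‖lg (y, Q)‖ ^ 2 ≤ ⟪e, lg (y, Q)⟫ ^ 2 := by
  obtain ⟨G, G', d, p, e1, e2⟩ := mono h Q y e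
  have mo := monotone_of_hasDerivAt_nonneg d p
  have h0 : G' 0 ≤ 0 := by
    refine le_of_tendsto (d 0).tendsto_slope_zero_right ?_
    filter_upwards [Ioc_mem_nhdsGT (zero_lt_one' ℝ)] with t ht
    have a1 := mo ht.2
    rw [zero_add, smul_eq_mul]
    exact mul_nonpos_of_nonneg_of_nonpos (inv_nonneg.2 ht.1.le) (by linarith)
  have := hu y e (lg (y, Q))
  linarith

theorem upp (h : YW m lg) {hi : ℝ} (hd : m.Dn hi) (h0 : 0 ≤ hi) (Q y e : V) :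
    ‖DL m lg Q y e + e‖ ≤ 2 * hi * ‖lg (y, Q)‖ ^ 2 * ‖e‖ := by
  obtain ⟨ξ, a1, a2, a3⟩ := jf h Q y e
  obtain ⟨z, hz⟩ : ∃ z : V × V, z = (y, lg (y, Q)) := ⟨_, rfl⟩
  rw [← hz] at a1 a2 a3
  have z2 : z.2 = lg (y, Q) := by rw [hz]
  obtain ⟨u, hu⟩ : ∃ u, u = DL m lg Q y e + e := ⟨_, rfl⟩
  rw [← hu]
  obtain ⟨O, O0, -, O1⟩ := h.jac.par z
  have dO : ∀ t, HasDerivAt (fun s => O s u) (0 - m.w z t (O t u)) t := fun t =>
    (O1 u t).congr_deriv (zero_sub _).symm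
  have key := DNTR.le_of_der (c := 2 * hi * ‖lg (y, Q)‖ ^ 2 * ‖e‖ * ‖u‖) (t := 1) (fun t =>
    (((((hasDerivAt_id t).const_sub 1).mul (cov_inner h.ok z (h.jac.d2 z ξ t) (dO t))).add
      (cov_inner h.ok z (h.jac.d1 z ξ t) (dO t))).neg)) (fun t ht => by
      have b1 := sPOL m 0 hi h.ok h.jac h.up hd (m.Z t z).1 (m.J z ξ t) (m.Z t z).2 (m.Z t z).2
      have b2 := DNTR.jac_le h.ok h.jac h.up z ξ a3 ht
      rw [DNWI.J_zero h.ok, a1] at b2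
      rw [zero_smul, add_zero, h.jac.norm, z2, sub_zero] at b1
      have b3 := abs_real_inner_le_norm (m.K (m.Z t z).1 (m.J z ξ t) (m.Z t z).2 (m.Z t z).2)
        (O t u)
      rw [(O t).norm_map] at b3
      have b4 : ‖m.K (m.Z t z).1 (m.J z ξ t) (m.Z t z).2 (m.Z t z).2‖ ≤
          2 * hi * ‖lg (y, Q)‖ ^ 2 * ‖e‖ := by
        nlinarith [mul_le_mul_of_nonneg_left b2 (by positivity : 0 ≤ 2 * hi * ‖lg (y, Q)‖ ^ 2)]
      have b5 := b3.trans (mul_le_mul_of_nonneg_right b4 (norm_nonneg u))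
      have b6 := le_abs_self ⟪m.K (m.Z t z).1 (m.J z ξ t) (m.Z t z).2 (m.Z t z).2, O t u⟫
      have b7 := abs_nonneg ⟪m.K (m.Z t z).1 (m.J z ξ t) (m.Z t z).2 (m.Z t z).2, O t u⟫
      simp only [inner_zero_right, inner_neg_left, add_zero, id]
      nlinarith [mul_le_mul_of_nonneg_left b6 (sub_nonneg.2 ht.2), mul_nonneg ht.1 b7])
    (right_mem_Icc.2 zero_le_one)
  simp only [Pi.add_apply, Pi.neg_apply, Pi.mul_apply, id, sub_self, zero_mul, a3,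
    inner_zero_left, add_zero, neg_zero, sub_zero, one_mul, mul_one, DNWI.J_zero h.ok,
    DNWI.J'_zero h.ok, a1, a2, O0] at key
  rw [← inner_add_left, ← hu, real_inner_self_eq_norm_sq] at key
  rcases (norm_nonneg u).eq_or_lt with u0 | u0
  · rw [← u0]
    positivity
  · exact le_of_mul_le_mul_right (by nlinarith) u0

theorem psd {A : V →L[ℝ] V} {μ : ℝ} (hs : ∀ a b, ⟪A a, b⟫ = ⟪a, A b⟫) (hp : ∀ a, 0 ≤ ⟪A a, a⟫)
    (hn : ∀ a, ‖A a‖ ≤ μ * ‖a‖) (h0 : 0 ≤ μ) (w : V) : ‖A w‖ ^ 2 ≤ μ * ⟪A w, w⟫ := by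
  rcases h0.eq_or_lt with rfl | h0
  · have := hn w
    rw [zero_mul] at this ⊢
    rw [le_antisymm this (norm_nonneg _)]
    simp
  have h1 := hp (μ • w - A w)
  have h2 := (real_inner_le_norm (A (A w)) (A w)).trans
    (mul_le_mul_of_nonneg_right (hn (A w)) (norm_nonneg _))
  rw [map_sub, map_smul, inner_sub_left, inner_sub_right, inner_sub_right, real_inner_smul_left,
    real_inner_smul_left, real_inner_smul_right, real_inner_smul_right, hs (A w) w,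
    real_inner_self_eq_norm_sq] at h1
  exact le_of_mul_le_mul_left (by nlinarith) h0

/-- The normal and tangential parts of `-s • DL w`. -/
theorem split (h : YW m lg) {hi : ℝ} (hd : m.Dn hi) (h0 : 0 ≤ hi) (Q y : V) {w : V}
    (hw : ‖w‖ = 1) {s : ℝ} (hs : 1 ≤ s) : ∃ (c : ℝ) (ζ : V), -(s • DL m lg Q y w) = c • w + ζ ∧
      1 ≤ c ∧ ⟪ζ, w⟫ = 0 ∧ ‖ζ‖ ≤ s * (2 * hi * ‖lg (y, Q)‖ ^ 2) ∧
      c ≤ s * (1 + 2 * hi * ‖lg (y, Q)‖ ^ 2) ∧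
      ‖ζ‖ ^ 2 ≤ s * (2 * hi * ‖lg (y, Q)‖ ^ 2) * (c - 1) ∧
      (m.Up 1 → c = 1 → s = 1 ∧ ‖lg (y, Q)‖ ^ 2 ≤ ⟪w, lg (y, Q)⟫ ^ 2) := by
  obtain ⟨A, hA⟩ : ∃ A : V →L[ℝ] V, ∀ e, A e = -(DL m lg Q y e + e) :=
    ⟨-(DL m lg Q y + ContinuousLinearMap.id ℝ V), fun e => rfl⟩
  obtain ⟨μ, hμ⟩ : ∃ μ, μ = 2 * hi * ‖lg (y, Q)‖ ^ 2 := ⟨_, rfl⟩
  have μ0 : 0 ≤ μ := by rw [hμ]; positivity
  have ia : ∀ a, ⟪A a, a⟫ = -⟪DL m lg Q y a, a⟫ - ‖a‖ ^ 2 := fun a => by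
    rw [hA, inner_neg_left, inner_add_left, real_inner_self_eq_norm_sq]
    ring
  have hp : ∀ a, 0 ≤ ⟪A a, a⟫ := fun a => by rw [ia]; linarith [low h Q y a]
  have hn : ∀ a, ‖A a‖ ≤ μ * ‖a‖ := fun a => by rw [hA, norm_neg, hμ]; exact upp h hd h0 Q y a
  have k1 := psd (A := A) (fun a b => by
    rw [hA, hA, inner_neg_left, inner_neg_right, inner_add_left, inner_add_right, sym h]) hp hn
    μ0 w
  have k2 := hn w
  have k3 := hp w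
  have k4 := real_inner_le_norm (A w) w
  rw [hw, mul_one] at k2 k4
  rw [← hμ]
  obtain ⟨a, ha⟩ : ∃ a, a = ⟪A w, w⟫ := ⟨_, rfl⟩
  rw [← ha] at k1 k3 k4
  have n1 : ‖A w - a • w‖ ^ 2 = ‖A w‖ ^ 2 - a ^ 2 := by
    rw [norm_sub_sq_real, real_inner_smul_right, ← ha, norm_smul, hw, mul_one, Real.norm_eq_abs,
      sq_abs]
    ring
  have n2 : ‖s • (A w - a • w)‖ = s * ‖A w - a • w‖ := by
    rw [norm_smul, Real.norm_eq_abs, abs_of_nonneg (by linarith)]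
  refine ⟨s * (1 + a), s • (A w - a • w), ?_, by nlinarith, ?_, ?_, by nlinarith, ?_,
    fun hu hc => ?_⟩
  · rw [hA]
    module
  · rw [real_inner_smul_left, inner_sub_left, real_inner_smul_left, real_inner_self_eq_norm_sq,
      hw, ← ha]
    ring
  · rw [n2]
    refine mul_le_mul_of_nonneg_left (le_trans ?_ k2) (by linarith)
    exact le_of_sq_le_sq (by nlinarith [sq_nonneg a]) (norm_nonneg _)
  · rw [n2, mul_pow, n1]
    have b1 : s ^ 2 * (‖A w‖ ^ 2 - a ^ 2) ≤ s ^ 2 * (μ * a) :=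
      mul_le_mul_of_nonneg_left (by nlinarith [sq_nonneg a]) (sq_nonneg s)
    nlinarith [mul_nonneg (mul_nonneg (by linarith : 0 ≤ s) μ0) (sub_nonneg.2 hs)]
  · have a0 : a ≤ 0 := by nlinarith
    have := strict h hu Q y w (by rw [ha, ia] at a0; linarith)
    rw [hw, one_pow, one_mul] at this
    exact ⟨by nlinarith, this⟩

end Pool.Agent.MP_3ee8cb_gt.DLH
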